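import Pool.Agent.Helper880_EX.Prd
import Pool.Agent.Helper880_EX.Mtb

/-!
# Mixed Hodge structures and rational Lie algebras
-/

set_option autoImplicit false
set_option linter.unusedSectionVars false
set_option linter.unusedVariables false

open Matrix Module

namespace Pool.Agent.Helper880_MX

open Pool.Agent.Helper880_R3 (Ix Tot Tot_mul Tot_inj ib ib_apply ib_mul)
open Pool.Agent.Helper880_ZP
open Pool.Agent.Helper880_EX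
open Pool.Agent.Helper880_HC (Ten act act_apply act_add act_smul act_zero act_br tC mapQ mapQ_Tot mapQ_act mu_mul one one_apply'
  one_sum Tot_sub)

section sum
variable {n N r₀ : ℕ} {𝔊 : Submodule ℂ (Matrix (Ix r₀ n N) (Ix r₀ n N) ℂ)}
  {φ₀ : Matrix (Fin r₀) (Fin r₀) ℂ} {φ : Fin N → Matrix (Fin n) (Fin n) ℂ}

/-- `Z ↦ 0 ⊕ Z_1 ⊕ … ⊕ Z_N` -/
def TotL (r₀ n N : ℕ) : (Fin N → Matrix (Fin n) (Fin n) ℂ) →ₗ[ℂ] Matrix (Ix r₀ n N) (Ix r₀ n N) ℂ where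
  toFun Z := Tot 0 Z
  map_add' := Tot_add
  map_smul' := Tot_smul

theorem ad_tot (Z : Fin N → Matrix (Fin n) (Fin n) ℂ) :
    Tot φ₀ φ * Tot 0 Z - Tot 0 Z * Tot φ₀ φ = Tot 0 fun j => φ j * Z j - Z j * φ j := by
  rw [Tot_br, Matrix.mul_zero, Matrix.zero_mul, sub_zero]

/-- **the sum of the codimensions** -/
theorem sum_cod {r : ℕ} {Q : Matrix (Ix r₀ n N) (Ix r₀ n N) ℂ} {Lev : Ix r₀ n N → ℤ}
    {𝔥 : Fin N → Submodule ℂ (Matrix (Ix r₀ n 1) (Ix r₀ n 1) ℂ)} (hE : Eig Lev Q (Tot φ₀ φ)) (hL : ∀ j, Lie' (𝔥 j))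
    (hφ : ∀ j, Tot φ₀ (fun _ : Fin 1 => φ j) ∈ 𝔥 j) {𝔪 : Fin N → Submodule ℂ (Matrix (Fin n) (Fin n) ℂ)}
    (hm : ∀ Z : Fin N → Matrix (Fin n) (Fin n) ℂ, (∀ j, Z j ∈ 𝔪 j) → Tot 0 Z ∈ 𝔊)
    (hcod : finrank ℂ 𝔊 ≤ finrank ℂ (𝔊 ⊓ (prH 𝔥 ⊔ cjS Q (ppS ℂ Lev)) :
      Submodule ℂ (Matrix (Ix r₀ n N) (Ix r₀ n N) ℂ)) + r) :
    ∑ j, finrank ℂ (ngS (𝔪 j) (φ j)) ≤
      ∑ j, finrank ℂ (ngS (𝔪 j) (φ j) ⊓ (𝔥 j).comap (ib (0 : Fin 1)) : Submodule ℂ (Matrix (Fin n) (Fin n) ℂ)) + r := by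
  classical
  let Φ : ((j : Fin N) → ngS (𝔪 j) (φ j)) →ₗ[ℂ] Matrix (Ix r₀ n N) (Ix r₀ n N) ℂ :=
    TotL r₀ n N ∘ₗ LinearMap.pi fun j => (ngS (𝔪 j) (φ j)).subtype ∘ₗ LinearMap.proj j
  have hΦ : ∀ X, Φ X = Tot 0 fun j => (X j : Matrix (Fin n) (Fin n) ℂ) := fun X => rfl
  have h1 := cod_sub Φ (V' := ⊤) (fun X _ => by
    rw [hΦ]
    exact hm _ fun j => ngS_le _ _ (X j).2) hcod
  have hφ' : Tot φ₀ φ ∈ prH 𝔥 := ⟨φ₀, φ, rfl, hφ⟩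
  have hLp := prH_lie hL
  have h2 : ∀ X, Φ X ∈ prH 𝔥 ⊔ cjS Q (ppS ℂ Lev) → ∀ j, ib (0 : Fin 1) (X j : Matrix (Fin n) (Fin n) ℂ) ∈ 𝔥 j := by
    intro X hX j
    have h3 : Φ X ∈ prH 𝔥 := by
      refine neg_part hE (fun Y hY => hLp _ hφ' _ hY) ?_ hX
      -- `Φ X` is a sum of elements in one block
      have h4 : Φ X = ∑ i, ib i (X i : Matrix (Fin n) (Fin n) ℂ) := by
        rw [hΦ]
        have h5 : (fun j => (X j : Matrix (Fin n) (Fin n) ℂ)) = ∑ i, Pi.single i (X i : Matrix (Fin n) (Fin n) ℂ) := by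
          funext l
          rw [Finset.sum_apply, Finset.sum_eq_single l]
          · rw [Pi.single_eq_same]
          · intro i _ hi
            rw [Pi.single_eq_of_ne hi.symm]
          · intro h
            exact absurd (Finset.mem_univ _) h
        rw [h5]
        have h6 := map_sum (TotL r₀ n N) (fun i => (Pi.single i (X i : Matrix (Fin n) (Fin n) ℂ) : Fin N → Matrix (Fin n) (Fin n) ℂ))
          Finset.univ
        refine h6.trans (Finset.sum_congr rfl fun i _ => ?_)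
        rw [ib_apply]
        rfl
      rw [h4]
      refine Submodule.sum_mem _ fun i _ => ?_
      have h4 := (X i).2
      generalize (X i : Matrix (Fin n) (Fin n) ℂ) = Y₀ at h4
      clear hX h1
      unfold ngS at h4
      induction h4 using Submodule.span_induction with
      | mem X hX =>
        obtain ⟨-, c, hc, hX⟩ := hX
        refine Submodule.subset_span ⟨c, hc, ?_⟩
        rw [ad_ib, hX, map_smul]
      | zero => rw [map_zero]; exact Submodule.zero_mem _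
      | add X Y _ _ hX hY => rw [map_add]; exact Submodule.add_mem _ hX hY
      | smul c X _ hX => rw [map_smul]; exact Submodule.smul_mem _ _ hX
    rw [hΦ] at h3
    have h5 := prH_of (j := j) h3
    rw [ib_apply]
    have h6 : (Pi.single 0 (X j : Matrix (Fin n) (Fin n) ℂ) : Fin 1 → Matrix (Fin n) (Fin n) ℂ) = fun _ => (X j : Matrix (Fin n) (Fin n) ℂ) := by
      funext l
      rw [Subsingleton.elim l 0, Pi.single_eq_same]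
    rw [h6]
    exact h5
  let ι : (⊤ ⊓ (prH 𝔥 ⊔ cjS Q (ppS ℂ Lev)).comap Φ : Submodule ℂ ((j : Fin N) → ngS (𝔪 j) (φ j))) →ₗ[ℂ]
      ((j : Fin N) → (ngS (𝔪 j) (φ j) ⊓ (𝔥 j).comap (ib (0 : Fin 1)) : Submodule ℂ (Matrix (Fin n) (Fin n) ℂ))) :=
    { toFun := fun X j => ⟨(X.1 j : Matrix (Fin n) (Fin n) ℂ), (X.1 j).2, h2 X.1 X.2.2 j⟩
      map_add' := fun X Y => rfl
      map_smul' := fun c X => rfl }
  have hι : Function.Injective ι := by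
    intro X Y h
    apply Subtype.ext
    funext j
    apply Subtype.ext
    have h3 : ι X j = ι Y j := congrFun h j
    exact congrArg (fun Z : (ngS (𝔪 j) (φ j) ⊓ (𝔥 j).comap (ib (0 : Fin 1)) : Submodule ℂ (Matrix (Fin n) (Fin n) ℂ)) =>
      (Z : Matrix (Fin n) (Fin n) ℂ)) h3
  have h3 := LinearMap.finrank_le_finrank_of_injective hι
  rw [Module.finrank_pi_fintype] at h3
  rw [finrank_top, Module.finrank_pi_fintype] at h1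
  exact h1.trans (Nat.add_le_add_right h3 r)

end sum

section mixed
variable {n : ℕ}

/-- a subspace spanned by rational vectors -/
def RatV (U : Submodule ℂ (Fin n → ℂ)) : Prop := U ≤ Submodule.span ℂ {v | v ∈ U ∧ ∀ a, ∃ q : ℚ, v a = q}

/-- mixed Hodge structures -/
structure Mxd (W : ℤ → Submodule ℂ (Fin n → ℂ)) (φ : Matrix (Fin n) (Fin n) ℂ) : Prop where
  mono : Monotone W
  bot : ∃ k, W k = ⊥
  top : ∃ k, W k = ⊤
  rat : ∀ k, RatV (W k)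
  stb : ∀ k, ∀ v ∈ W k, φ *ᵥ v ∈ W k
  sym : ∀ k, ∀ v ∈ W k, φ *ᵥ v + mbar φ *ᵥ v - (k : ℂ) • v ∈ W (k - 1)

/-- rational spaces are stable under complex conjugation -/
theorem RatV.bar {U : Submodule ℂ (Fin n → ℂ)} (h : RatV U) {v : Fin n → ℂ} (hv : v ∈ U) : star v ∈ U := by
  have h1 := h hv
  clear hv
  induction h1 using Submodule.span_induction with
  | mem v hv =>
    have h2 : star v = v := by
      funext a
      obtain ⟨q, hq⟩ := hv.2 a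
      rw [Pi.star_apply, hq]
      exact map_ratCast (starRingEnd ℂ) q
    rw [h2]
    exact hv.1
  | zero => rw [star_zero]; exact U.zero_mem
  | add u v _ _ hu hv => rw [star_add]; exact U.add_mem hu hv
  | smul c v _ hv =>
    rw [star_smul]
    exact U.smul_mem _ hv

/-- no trivial quotients -/
def NTQ (𝔪 : Submodule ℂ (Matrix (Fin n) (Fin n) ℂ)) (φ : Matrix (Fin n) (Fin n) ℂ) : Prop :=
  ∀ 𝔦 : Submodule ℂ (Matrix (Fin n) (Fin n) ℂ), 𝔦 ≤ 𝔪 → DefOver K₀ 𝔦 → (∀ X ∈ 𝔪, ∀ Y ∈ 𝔦, X * Y - Y * X ∈ 𝔦) →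
    (∀ X ∈ 𝔪, φ * X - X * φ ∈ 𝔦) → 𝔪 ≤ 𝔦

/-- the elements of weight at most `k` -/
def wt (W : ℤ → Submodule ℂ (Fin n → ℂ)) (𝔪 : Submodule ℂ (Matrix (Fin n) (Fin n) ℂ)) (k : ℤ) :
    Submodule ℂ (Matrix (Fin n) (Fin n) ℂ) where
  carrier := {X | X ∈ 𝔪 ∧ ∀ j, ∀ v ∈ W j, X *ᵥ v ∈ W (j + k)}
  zero_mem' := ⟨𝔪.zero_mem, fun j v _ => by rw [Matrix.zero_mulVec]; exact Submodule.zero_mem _⟩
  add_mem' := by
    rintro X Y ⟨h1, h2⟩ ⟨h3, h4⟩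
    refine ⟨𝔪.add_mem h1 h3, fun j v hv => ?_⟩
    rw [Matrix.add_mulVec]
    exact Submodule.add_mem _ (h2 j v hv) (h4 j v hv)
  smul_mem' := by
    rintro c X ⟨h1, h2⟩
    refine ⟨𝔪.smul_mem _ h1, fun j v hv => ?_⟩
    rw [Matrix.smul_mulVec]
    exact Submodule.smul_mem _ _ (h2 j v hv)

variable {W : ℤ → Submodule ℂ (Fin n → ℂ)} {𝔪 𝔫 : Submodule ℂ (Matrix (Fin n) (Fin n) ℂ)} {φ : Matrix (Fin n) (Fin n) ℂ}

theorem wt_le {k : ℤ} : wt W 𝔪 k ≤ 𝔪 := fun X hX => hX.1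

theorem wt_phi (hW : Mxd W φ) (hst : ∀ Y ∈ 𝔪, φ * Y - Y * φ ∈ 𝔪) {k : ℤ} :
    ∀ Y ∈ wt W 𝔪 k, φ * Y - Y * φ ∈ wt W 𝔪 k := by
  rintro Y ⟨h1, h2⟩
  refine ⟨hst Y h1, fun j v hv => ?_⟩
  rw [Matrix.sub_mulVec, ← Matrix.mulVec_mulVec, ← Matrix.mulVec_mulVec]
  exact Submodule.sub_mem _ (hW.stb _ _ (h2 j v hv)) (h2 j _ (hW.stb _ _ hv))

theorem wt_bar (hW : Mxd W φ) (hb : ∀ X ∈ 𝔪, mbar X ∈ 𝔪) {k : ℤ} : ∀ Y ∈ wt W 𝔪 k, mbar Y ∈ wt W 𝔪 k := by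
  rintro Y ⟨h1, h2⟩
  refine ⟨hb Y h1, fun j v hv => ?_⟩
  have h3 := (hW.rat _).bar (h2 j _ ((hW.rat _).bar hv))
  rw [mbar_mulVec, star_star] at h3
  exact h3

/-- the commutator with `φ + conj φ` is the multiplication by the weight -/
theorem wt_sym (hW : Mxd W φ) {k : ℤ} {Y : Matrix (Fin n) (Fin n) ℂ} (hY : ∀ j, ∀ v ∈ W j, Y *ᵥ v ∈ W (j + k)) {j : ℤ}
    {v : Fin n → ℂ} (hv : v ∈ W j) :
    ((φ * Y - Y * φ) + (mbar φ * Y - Y * mbar φ) - (k : ℂ) • Y) *ᵥ v ∈ W (j + (k - 1)) := by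
  have h1 := hW.sym (j + k) _ (hY j v hv)
  have h2 := hY (j - 1) _ (hW.sym j v hv)
  have e1 : j + k - 1 = j + (k - 1) := by ring
  have e2 : j - 1 + k = j + (k - 1) := by ring
  rw [e1] at h1
  rw [e2] at h2
  have h3 : ((φ * Y - Y * φ) + (mbar φ * Y - Y * mbar φ) - (k : ℂ) • Y) *ᵥ v =
      (φ *ᵥ (Y *ᵥ v) + mbar φ *ᵥ (Y *ᵥ v) - ((j + k : ℤ) : ℂ) • (Y *ᵥ v)) -
        Y *ᵥ (φ *ᵥ v + mbar φ *ᵥ v - (j : ℂ) • v) := by
    simp only [Matrix.sub_mulVec, Matrix.add_mulVec, Matrix.mulVec_add, Matrix.mulVec_sub, Matrix.smul_mulVec,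
      Matrix.mulVec_smul, Matrix.mulVec_mulVec, Int.cast_add, add_smul]
    abel
  rw [h3]
  exact Submodule.sub_mem _ h1 h2

/-- an element which is an eigenvector with a negative eigenvalue modulo `𝔫` is in `𝔫` -/
theorem neg_mod {Q : Matrix (Fin n) (Fin n) ℂ} {lev : Fin n → ℤ} (hE : Eig lev Q φ) (h𝔫 : ∀ Y ∈ 𝔫, φ * Y - Y * φ ∈ 𝔫)
    (hn𝔪 : 𝔫 ≤ 𝔪) (hng : ngS 𝔪 φ ≤ 𝔫) {Y : Matrix (Fin n) (Fin n) ℂ} (hY : Y ∈ 𝔪) {c : ℤ} (hc : c < 0)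
    (h : (φ * Y - Y * φ) - (c : ℂ) • Y ∈ 𝔫) : Y ∈ 𝔫 := by
  by_contra hcon
  set 𝔫' : Submodule ℂ (Matrix (Fin n) (Fin n) ℂ) := 𝔫 ⊔ Submodule.span ℂ {Y} with h𝔫'
  have hmem : ∀ Z, Z ∈ 𝔫' ↔ ∃ A ∈ 𝔫, ∃ l : ℂ, A + l • Y = Z := by
    intro Z
    rw [h𝔫', Submodule.mem_sup]
    constructor
    · rintro ⟨A, hA, B, hB, rfl⟩
      obtain ⟨l, rfl⟩ := Submodule.mem_span_singleton.1 hB
      exact ⟨A, hA, l, rfl⟩
    · rintro ⟨A, hA, l, rfl⟩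
      exact ⟨A, hA, l • Y, Submodule.smul_mem _ _ (Submodule.mem_span_singleton_self _), rfl⟩
  have hbr : ∀ (A : Matrix (Fin n) (Fin n) ℂ) (l : ℂ), φ * (A + l • Y) - (A + l • Y) * φ =
      (φ * A - A * φ) + l • ((φ * Y - Y * φ) - (c : ℂ) • Y) + (l * c) • Y := by
    intro A l
    rw [Matrix.mul_add, Matrix.add_mul, Matrix.mul_smul, Matrix.smul_mul, smul_sub, smul_sub, smul_smul]
    abel
  have hst : ∀ Z ∈ 𝔫', φ * Z - Z * φ ∈ 𝔫' := by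
    intro Z hZ
    obtain ⟨A, hA, l, rfl⟩ := (hmem Z).1 hZ
    rw [hbr]
    exact (hmem _).2 ⟨_, 𝔫.add_mem (h𝔫 A hA) (𝔫.smul_mem l h), l * c, rfl⟩
  have h1 := mat_span hE hst
  have h2 : 𝔫' ≤ 𝔫 := by
    refine h1.trans (Submodule.span_le.2 ?_)
    rintro Z ⟨hZ, e, he⟩
    obtain ⟨A, hA, l, rfl⟩ := (hmem Z).1 hZ
    rw [SetLike.mem_coe]
    by_cases hl : l = 0
    · rw [hl, zero_smul, add_zero]
      exact hA
    exfalso
    rw [hbr] at he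
    have h3 : (l * ((e : ℂ) - c)) • Y = (φ * A - A * φ) + l • ((φ * Y - Y * φ) - (c : ℂ) • Y) - (e : ℂ) • A := by
      have h4 : (l * ((e : ℂ) - c)) • Y = (e : ℂ) • (A + l • Y) - (e : ℂ) • A - (l * c) • Y := by
        rw [mul_sub, sub_smul, smul_add, smul_smul, mul_comm (e : ℂ) l]
        abel
      rw [h4, ← he]
      abel
    have h5 : (l * ((e : ℂ) - c)) • Y ∈ 𝔫 := by
      rw [h3]
      exact 𝔫.sub_mem (𝔫.add_mem (h𝔫 A hA) (𝔫.smul_mem l h)) (𝔫.smul_mem _ hA)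
    by_cases hec : e = c
    · have h6 : A + l • Y ∈ 𝔫 := hng (Submodule.subset_span ⟨𝔪.add_mem (hn𝔪 hA) (𝔪.smul_mem _ hY), e, by omega, by
        rw [hbr]
        exact he⟩)
      have h7 : l • Y ∈ 𝔫 := by
        have h8 := 𝔫.sub_mem h6 hA
        rwa [add_sub_cancel_left] at h8
      have h8 := 𝔫.smul_mem l⁻¹ h7
      rw [smul_smul, inv_mul_cancel₀ hl, one_smul] at h8
      exact hcon h8
    · have h6 : l * ((e : ℂ) - c) ≠ 0 := mul_ne_zero hl (sub_ne_zero.2 fun h => hec (by exact_mod_cast h))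
      have h8 := 𝔫.smul_mem (l * ((e : ℂ) - c))⁻¹ h5
      rw [smul_smul, inv_mul_cancel₀ h6, one_smul] at h8
      exact hcon h8
  exact hcon (h2 ((hmem Y).2 ⟨0, 𝔫.zero_mem, 1, by rw [one_smul, zero_add]⟩))

/-- one step: an eigenvector of weight at most `k` -/
theorem step {Q : Matrix (Fin n) (Fin n) ℂ} {lev : Fin n → ℤ} (hE : Eig lev Q φ) (hW : Mxd W φ)
    (hst : ∀ Y ∈ 𝔪, φ * Y - Y * φ ∈ 𝔪) (hb : ∀ X ∈ 𝔪, mbar X ∈ 𝔪) (hbn : ∀ X ∈ 𝔫, mbar X ∈ 𝔫)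
    (h𝔫 : ∀ Y ∈ 𝔫, φ * Y - Y * φ ∈ 𝔫) (hn𝔪 : 𝔫 ≤ 𝔪) (hng : ngS 𝔪 φ ≤ 𝔫) {k a : ℤ} (hk : wt W 𝔪 (k - 1) ≤ 𝔫)
    (hka : k < a) {X : Matrix (Fin n) (Fin n) ℂ} (hX : X ∈ wt W 𝔪 k) (hXa : φ * X - X * φ = (a : ℂ) • X) : X ∈ 𝔫 := by
  have h1 := wt_bar hW hb X hX
  have h2 : mbar φ * mbar X - mbar X * mbar φ = (a : ℂ) • mbar X := by
    have k1 := congrArg mbar hXa
    have k2 : mbar (φ * X - X * φ) = mbar φ * mbar X - mbar X * mbar φ := by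
      rw [mbar_sub, mbar_mul, mbar_mul]
    have k3 : star ((a : ℤ) : ℂ) = (a : ℂ) := map_intCast (starRingEnd ℂ) a
    rw [k2, mbar_smul, k3] at k1
    exact k1
  have h3 : (φ * mbar X - mbar X * φ) - ((k - a : ℤ) : ℂ) • mbar X ∈ wt W 𝔪 (k - 1) := by
    refine ⟨𝔪.sub_mem (hst _ h1.1) (𝔪.smul_mem _ h1.1), fun j v hv => ?_⟩
    have h4 := wt_sym hW h1.2 hv
    rw [h2] at h4
    have h5 : (φ * mbar X - mbar X * φ) - ((k - a : ℤ) : ℂ) • mbar X =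
        (φ * mbar X - mbar X * φ) + (a : ℂ) • mbar X - (k : ℂ) • mbar X := by
      rw [Int.cast_sub, sub_smul]
      abel
    rw [h5]
    exact h4
  have h4 := neg_mod hE h𝔫 hn𝔪 hng h1.1 (c := k - a) (by omega) (hk h3)
  have h5 := hbn _ h4
  rwa [mbar_mbar] at h5

/-- **a rational Lie algebra which contains the elements of negative degree contains all elements of degree different
from zero and all elements of negative weight** -/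
theorem wt_in {Q : Matrix (Fin n) (Fin n) ℂ} {lev : Fin n → ℤ} (hE : Eig lev Q φ) (hW : Mxd W φ)
    (hst : ∀ Y ∈ 𝔪, φ * Y - Y * φ ∈ 𝔪) (hb : ∀ X ∈ 𝔪, mbar X ∈ 𝔪) (hbn : ∀ X ∈ 𝔫, mbar X ∈ 𝔫)
    (h𝔫 : ∀ Y ∈ 𝔫, φ * Y - Y * φ ∈ 𝔫) (hn𝔪 : 𝔫 ≤ 𝔪) (hng : ngS 𝔪 φ ≤ 𝔫) : ∀ m : ℕ, ∀ k : ℤ, k < 0 →
      (∃ b t : ℤ, W b = ⊥ ∧ W t = ⊤ ∧ t + k ≤ b + m) → wt W 𝔪 k ≤ 𝔫 := by
  intro m
  induction m with
  | zero =>
    rintro k hk ⟨b, t, hb', ht, hbt⟩ X hX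
    have h1 : X = 0 := by
      have h2 : ∀ v, X *ᵥ v = 0 := by
        intro v
        have h3 := hX.2 t v (by rw [ht]; exact Submodule.mem_top)
        have h4 : W (t + k) ≤ W b := hW.mono (by push_cast at hbt; omega)
        have h5 := h4 h3
        rw [hb', Submodule.mem_bot] at h5
        exact h5
      ext i j
      have h3 := congrFun (h2 (Pi.single j 1)) i
      rw [Matrix.mulVec_single_one] at h3
      exact h3
    rw [h1]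
    exact 𝔫.zero_mem
  | succ m ih =>
    rintro k hk ⟨b, t, hb', ht, hbt⟩
    have h1 : wt W 𝔪 (k - 1) ≤ 𝔫 := ih (k - 1) (by omega) ⟨b, t, hb', ht, by push_cast at hbt; omega⟩
    refine (mat_span hE (wt_phi hW hst)).trans (Submodule.span_le.2 ?_)
    rintro X ⟨hX, a, ha⟩
    rw [SetLike.mem_coe]
    by_cases h2 : a < 0
    · exact hng (Submodule.subset_span ⟨hX.1, a, h2, ha⟩)
    · exact step hE hW hst hb hbn h𝔫 hn𝔪 hng h1 (by omega) hX ha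

/-- **mixed Hodge structures**: codimension zero -/
theorem full {Q : Matrix (Fin n) (Fin n) ℂ} {lev : Fin n → ℤ} (hE : Eig lev Q φ) (hW : Mxd W φ) (h𝔪 : DefOver K₀ 𝔪)
    (hL : Lie' 𝔪) (hst : ∀ Y ∈ 𝔪, φ * Y - Y * φ ∈ 𝔪) (hwt : ∀ X ∈ 𝔪, ∀ k, ∀ v ∈ W k, X *ᵥ v ∈ W k) (hq : NTQ 𝔪 φ)
    (hn𝔪 : 𝔫 ≤ 𝔪) (hrn : DefOver K₀ 𝔫) (hLn : Lie' 𝔫) (h𝔫 : ∀ Y ∈ 𝔫, φ * Y - Y * φ ∈ 𝔫) (hng : ngS 𝔪 φ ≤ 𝔫) : 𝔪 ≤ 𝔫 := by
  have hb := rat_bar h𝔪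
  have hbn := rat_bar hrn
  obtain ⟨b, hb'⟩ := hW.bot
  obtain ⟨t, ht⟩ := hW.top
  have h1 : wt W 𝔪 (0 - 1) ≤ 𝔫 := wt_in hE hW hst hb hbn h𝔫 hn𝔪 hng (t - 1 - b).toNat (0 - 1) (by omega)
    ⟨b, t, hb', ht, by omega⟩
  have h2 : gnS 𝔪 φ ≤ 𝔫 := by
    refine gnS_le hLn fun X hX a ha hXa => ?_
    rcases lt_or_gt_of_ne ha with ha | ha
    · exact hng (Submodule.subset_span ⟨hX, a, ha, hXa⟩)
    · refine step hE hW hst hb hbn h𝔫 hn𝔪 hng h1 ha ⟨hX, fun j v hv => ?_⟩ hXa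
      rw [add_zero]
      exact hwt X hX j v hv
  have h3 : ratcl (gnS 𝔪 φ) ≤ 𝔫 := ratcl_le h2 hrn
  refine (hq _ (h3.trans hn𝔪) (ratcl_rat _) (ratcl_ideal h𝔪 (gnS_ideal hE hL hst)) ?_).trans h3
  intro X hX
  refine le_ratcl _ ?_
  have h4 := mat_span hE hst hX
  clear hX
  induction h4 using Submodule.span_induction with
  | mem Y hY =>
    obtain ⟨hY, a, ha⟩ := hY
    by_cases ha0 : a = 0
    · rw [ha, ha0, Int.cast_zero, zero_smul]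
      exact Submodule.zero_mem _
    · rw [ha]
      exact Submodule.smul_mem _ _ (gnS_mem hY ha0 ha)
  | zero => rw [Matrix.mul_zero, Matrix.zero_mul, sub_zero]; exact Submodule.zero_mem _
  | add Y Y' _ _ hY hY' =>
    have h1 : φ * (Y + Y') - (Y + Y') * φ = (φ * Y - Y * φ) + (φ * Y' - Y' * φ) := by noncomm_ring
    rw [h1]
    exact Submodule.add_mem _ hY hY'
  | smul c Y _ hY =>
    rw [Matrix.mul_smul, Matrix.smul_mul, ← smul_sub]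
    exact Submodule.smul_mem _ _ hY

end mixed

end Pool.Agent.Helper880_MX
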