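import Pool.Agent.Helper880_MX.Mix

/-!
# Hodge tensors of mixed Hodge structures
-/

set_option autoImplicit false
set_option linter.unusedSectionVars false
set_option linter.unusedVariables false

open Matrix Module

namespace Pool.Agent.Helper880_MX

open Pool.Agent.Helper880_R3 (Ix Tot Tot_mul Tot_inj ib ib_apply ib_mul)
open Pool.Agent.Helper880_ZP
open Pool.Agent.Helper880_EX
open Pool.Agent.Helper880_HC (Ten act act_apply act_add act_smul act_zero act_br tC mapQ mapQ_Tot mapQ_act mu_mul one one_apply'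
  one_sum Tot_sub)

variable {n r₀ d₀ d : ℕ} {𝔪 : Submodule ℂ (Matrix (Fin n) (Fin n) ℂ)} {φ φc : Matrix (Fin n) (Fin n) ℂ}
  {φ₀ : Matrix (Fin r₀) (Fin r₀) ℂ}

theorem one_br (τ : Fin d → Fin 1) (f : Ten ℂ d₀ d r₀ n) (x : Matrix (Fin r₀) (Fin r₀) ℂ) (X Y : Matrix (Fin n) (Fin n) ℂ) :
    one τ f 0 (X * Y - Y * X) = act τ x (fun _ => X) (act τ 0 (fun _ => Y) f) - act τ 0 (fun _ => Y) (act τ x (fun _ => X) f) := by
  have h1 := act_br (K := ℂ) (d₀ := d₀) (r₀ := r₀) τ x 0 (fun _ : Fin 1 => X) (fun _ : Fin 1 => Y)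
  rw [Matrix.mul_zero, Matrix.zero_mul, sub_zero] at h1
  have h3 := congrArg (fun T : Module.End ℂ (Ten ℂ d₀ d r₀ n) => T f) h1
  simp only [LinearMap.sub_apply, Module.End.mul_apply] at h3
  rw [h3, one_apply']
  congr 1
  congr 1
  funext l
  rw [Subsingleton.elim l 0, Pi.single_eq_same]

theorem one_eq (τ : Fin d → Fin 1) (f : Ten ℂ d₀ d r₀ n) (X : Matrix (Fin n) (Fin n) ℂ) :
    one τ f 0 X = act τ 0 (fun _ => X) f := by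
  rw [one_apply']
  congr 2
  funext l
  rw [Subsingleton.elim l 0, Pi.single_eq_same]

theorem ib_zero (X : Matrix (Fin n) (Fin n) ℂ) : ib (r₀ := r₀) (0 : Fin 1) X = Tot 0 fun _ => X := by
  rw [ib_apply]
  have h : (Pi.single 0 X : Fin 1 → Matrix (Fin n) (Fin n) ℂ) = fun _ => X := by
    funext l
    rw [Subsingleton.elim l 0, Pi.single_eq_same]
  rw [h]
  rfl

/-- Hodge tensors are invariant -/
theorem killM (hL : Lie' 𝔪) (hr : DefOver K₀ 𝔪) (hst : ∀ Y ∈ 𝔪, φ * Y - Y * φ ∈ 𝔪) (hq : NTQ 𝔪 φ)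
    (h : ∀ X ∈ 𝔪, ib (0 : Fin 1) X ∈ mtB φ₀ (fun _ : Fin 1 => φ)) {τ : Fin d → Fin 1} {f : Ten ℚ d₀ d r₀ n}
    (hf : ∃ q : ℤ, act τ φ₀ (fun _ : Fin 1 => φ) (tC f) = (q : ℂ) • tC f) : ∀ j, ∀ X ∈ 𝔪, one τ (tC f) j X = 0 := by
  obtain ⟨q, hq'⟩ := hf
  have hc : ∀ X ∈ 𝔪, ∃ c : ℂ, act τ 0 (fun _ => X) (tC f) = c • tC f := by
    intro X hX
    obtain ⟨x, X', he, h2⟩ := h X hX
    rw [ib_zero] at he
    obtain ⟨hx, hX'⟩ := Tot_inj he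
    obtain ⟨c, hc⟩ := h2 d₀ d τ f ⟨q, hq'⟩
    exact ⟨c, by rw [hx, hX']; exact hc⟩
  have key : 𝔪 ≤ 𝔪 ⊓ LinearMap.ker (one τ (tC f) 0) := by
    refine hq _ inf_le_left (rat_of ?_) ?_ ?_
    · rintro μ Y ⟨h1, h2⟩
      refine ⟨mapQ_mem hr μ h1, ?_⟩
      rw [SetLike.mem_coe, LinearMap.mem_ker, one_eq] at h2 ⊢
      funext u v
      have h3 := mapQ_act μ τ (0 : Matrix (Fin r₀) (Fin r₀) ℂ) (fun _ : Fin 1 => Y) f u v
      rw [mapQ_zero, h2] at h3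
      rw [h3]
      show (((μ 0 : ℚ)) : ℂ) = 0
      rw [map_zero, Rat.cast_zero]
    · rintro X hX Y ⟨h1, h2⟩
      refine ⟨hL _ hX _ h1, ?_⟩
      rw [SetLike.mem_coe, LinearMap.mem_ker, one_eq] at h2
      obtain ⟨c, hc⟩ := hc X hX
      rw [SetLike.mem_coe, LinearMap.mem_ker, one_br τ _ 0, h2, map_zero, zero_sub, hc, map_smul, h2, smul_zero, neg_zero]
    · intro X hX
      refine ⟨hst X hX, ?_⟩
      obtain ⟨c, hc⟩ := hc X hX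
      rw [SetLike.mem_coe, LinearMap.mem_ker, one_br τ _ φ₀, hc, map_smul, hq', map_smul, hc, smul_smul, smul_smul, mul_comm,
        sub_self]
  intro j X hX
  rw [Subsingleton.elim j 0]
  exact LinearMap.mem_ker.1 (key hX).2

/-- **the Hodge tensors are the invariant tensors which are Hodge tensors for `φc`** -/
theorem hodgeM (hL : Lie' 𝔪) (hr : DefOver K₀ 𝔪) (hst : ∀ Y ∈ 𝔪, φ * Y - Y * φ ∈ 𝔪) (hq : NTQ 𝔪 φ)
    (h : ∀ X ∈ 𝔪, ib (0 : Fin 1) X ∈ mtB φ₀ (fun _ : Fin 1 => φ)) (hd : φ - φc ∈ 𝔪) {τ : Fin d → Fin 1}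
    {f : Ten ℚ d₀ d r₀ n} :
    (∃ q : ℤ, act τ φ₀ (fun _ : Fin 1 => φ) (tC f) = (q : ℂ) • tC f) ↔
      (∃ q : ℤ, act τ φ₀ (fun _ : Fin 1 => φc) (tC f) = (q : ℂ) • tC f) ∧ ∀ j, ∀ X ∈ 𝔪, one τ (tC f) j X = 0 := by
  constructor
  · intro hf
    have hk := killM hL hr hst hq h hf
    refine ⟨?_, hk⟩
    obtain ⟨q, hq⟩ := hf
    refine ⟨q, ?_⟩
    rw [act_diff τ φ₀ (fun _ => φ) fun _ => φc, Finset.sum_eq_zero fun j _ => hk j _ hd, add_zero] at hq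
    exact hq
  · rintro ⟨⟨q, hq⟩, hk⟩
    refine ⟨q, ?_⟩
    rw [act_diff τ φ₀ (fun _ => φ) fun _ => φc, Finset.sum_eq_zero fun j _ => hk j _ hd, add_zero]
    exact hq

/-- the elements of `𝔪` which are in `𝔥` -/
theorem cut {𝔥 : Submodule ℂ (Matrix (Ix r₀ n 1) (Ix r₀ n 1) ℂ)} (hL : Lie' 𝔪) (hr : DefOver K₀ 𝔪)
    (hst : ∀ Y ∈ 𝔪, φ * Y - Y * φ ∈ 𝔪) (hL' : Lie' 𝔥) (hr' : DefOver K₀ 𝔥) (hφ : Tot φ₀ (fun _ : Fin 1 => φ) ∈ 𝔥) :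
    DefOver K₀ (𝔪 ⊓ 𝔥.comap (ib (0 : Fin 1))) ∧ Lie' (𝔪 ⊓ 𝔥.comap (ib (0 : Fin 1))) ∧
      ∀ Y ∈ 𝔪 ⊓ 𝔥.comap (ib (0 : Fin 1)), φ * Y - Y * φ ∈ 𝔪 ⊓ 𝔥.comap (ib (0 : Fin 1)) := by
  refine ⟨rat_of ?_, ?_, ?_⟩
  · rintro μ Y ⟨h1, h2⟩
    refine ⟨mapQ_mem hr μ h1, ?_⟩
    rw [SetLike.mem_coe, Submodule.mem_comap, ib_zero] at h2 ⊢
    have h3 := mapQ_mem hr' μ h2
    rw [mapQ_Tot, mapQ_zero] at h3
    exact h3
  · rintro X ⟨h1, h2⟩ Y ⟨h3, h4⟩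
    refine ⟨hL _ h1 _ h3, ?_⟩
    rw [SetLike.mem_coe, Submodule.mem_comap, ib_zero] at h2 h4 ⊢
    have h5 := hL' _ h2 _ h4
    rw [Tot_br, Matrix.mul_zero, sub_zero] at h5
    exact h5
  · rintro Y ⟨h1, h2⟩
    refine ⟨hst _ h1, ?_⟩
    rw [SetLike.mem_coe, Submodule.mem_comap] at h2 ⊢
    have h3 := hL' _ hφ _ h2
    rw [ad_ib] at h3
    exact h3

end Pool.Agent.Helper880_MX
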